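import Mathlib
import Pool.Agent.H868Z.Diagram.Defs
import Pool.Agent.H868Z.Diagram.Model2
import Pool.Agent.H868Z.Diagram.Solv

/-!
# MP_f61096_al: finitely presented solvable diagram groups are abelian

The hyperplanes of the universal cover of the Squier complex that are skewered by elements of an
abelian normal subgroup `A` fall into linearly ordered bumps. A track argument in a presentation
complex, together with solvability, shows that every bump is fixed by the group; counting the
hyperplanes of a bump then gives homomorphisms to `ℤ` that separate `A` from the commutator
subgroup.
-/

namespace Pool.Agent.Results.MP_f61096_al.Abelian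

open Pool.Agent.H868Z.Diagram

universe u v

/-- Every finitely presented solvable diagram group (over an arbitrary semigroup presentation) is
abelian. -/
theorem result (G : Type v) [Group G] (A : Type u) (P : Pres A) (w : Word P)
    (h : Nonempty (G ≃* DiagramGroup P w)) (hfp : Group.IsFinitelyPresented G)
    (hs : Group.IsSolvable G) : ∀ a b : G, a * b = b * a := by
  obtain ⟨e⟩ := h
  have := Group.IsFinitelyPresented.equiv e
  have : Group.IsSolvable (DiagramGroup P w) :=
    Group.isSolvable_of_surjective (f := e.toMonoidHom) e.surjective
  intro a b
  apply e.injective
  rw [map_mul, map_mul]
  exact ((sys w).commute_of_solvable (e a) (e b)).eq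

end Pool.Agent.Results.MP_f61096_al.Abelian
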